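import Pool.Agent.Helper5.WD.Stmts
import Pool.Agent.Helper95.UN.BL3

set_option autoImplicit false

open Finset Pool.Agent.Helper8.UN Pool.Agent.Helper5.FV

namespace Pool.Agent.Helper5.WD

open scoped Classical in
theorem gbl3_gen (n D r k : ℕ) (E : Finset (Finset (Fin n))) (W W' : Finset (Fin n))
    (y : Fin n) (hDk : D < k) (hr : 4 ≤ r)
    (hW : ∀ z ∈ W, z ≠ y → z ∈ W') (M : Finset (Fin n → ℕ)) (T : ℕ)
    (h1 : ∀ e : Finset (Fin n), e ⊆ W' → e.Nonempty →
      (k - D) ^ (e.card - 1) * (M.filter (fun f => ∃ i, ∀ v ∈ e, f v = i)).card ≤ T)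
    (h2 : (k - D) ^ (r - 1 - 1) * (M.filter (fun f => ∃ i ∈ Finset.Icc 1 k,
      r - 1 ≤ (W'.filter (fun v => f v = i)).card)).card ≤ n.choose (r - 1) * T) :
    ∑ f ∈ M, (bl3 E W k f y : ℝ) ≤ T *
      (ws E r ((k : ℝ) - D) y + n * n.choose (r - 1) / ((k : ℝ) - D) ^ (r - 2)) := by
  classical
  have hkD : (0 : ℝ) < (k : ℝ) - D := by
    have : (D : ℝ) < k := by exact_mod_cast hDk
    linarith
  have hcast : ((k - D : ℕ) : ℝ) = (k : ℝ) - D := by
    rw [Nat.cast_sub hDk.le]
  have hsum : ∑ f ∈ M, bl3 E W k f y ≤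
      ∑ e ∈ bl3_F E W y r, (M.filter (fun f => bl3_Cst f y e)).card +
        n * (M.filter (fun f => bl3_Big W' k (r - 1) f)).card := by
    calc ∑ f ∈ M, bl3 E W k f y ≤ ∑ f ∈ M,
        (((bl3_F E W y r).filter (fun e => bl3_Cst f y e)).card +
          (if bl3_Big W' k (r - 1) f then n else 0)) :=
          Finset.sum_le_sum (fun f _ => bl3_pt n r k E W W' y hr hW f)
      _ = _ := by
        rw [Finset.sum_add_distrib]
        congr 1
        · simp only [Finset.card_filter]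
          rw [Finset.sum_comm]
        · rw [← Finset.sum_filter, Finset.sum_const, smul_eq_mul, mul_comm]
  have hT0 : (0 : ℝ) ≤ T := Nat.cast_nonneg _
  have hF : ∀ e ∈ bl3_F E W y r, ((M.filter (fun f => bl3_Cst f y e)).card : ℝ) ≤
      T * (1 / ((k : ℝ) - D)) ^ (e.card - 2) := by
    intro e he
    unfold bl3_F at he
    obtain ⟨_, heW, hye, hc3, _⟩ := Finset.mem_filter.1 he
    have hce : (e.erase y).card = e.card - 1 := Finset.card_erase_of_mem hye
    have hne : (e.erase y).Nonempty := by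
      rw [← Finset.card_pos, hce]
      omega
    have hsub : e.erase y ⊆ W' := by
      intro z hz
      have hz' := Finset.mem_erase.1 hz
      exact hW z (heW hz'.2) hz'.1
    have h3 := h1 (e.erase y) hsub hne
    rw [hce] at h3
    have h4 : (M.filter (fun f => bl3_Cst f y e)).card ≤
        (M.filter (fun f => ∃ i, ∀ v ∈ e.erase y, f v = i)).card := by
      refine Finset.card_le_card ?_
      intro f hf
      have hf' := Finset.mem_filter.1 hf
      refine Finset.mem_filter.2 ⟨hf'.1, ?_⟩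
      obtain ⟨z, hz⟩ := hne
      have hz1 := Finset.mem_erase.1 hz
      refine ⟨f z, fun v hv => ?_⟩
      have hv1 := Finset.mem_erase.1 hv
      exact hf'.2 v hv1.2 z hz1.2 hv1.1 hz1.1
    have h5 : (k - D) ^ (e.card - 1 - 1) * (M.filter (fun f => bl3_Cst f y e)).card ≤ T :=
      le_trans (Nat.mul_le_mul_left _ h4) h3
    have h6 : (((k - D) ^ (e.card - 1 - 1) * (M.filter (fun f => bl3_Cst f y e)).card : ℕ) : ℝ) ≤
        T := by
      exact_mod_cast h5
    have h7 : e.card - 1 - 1 = e.card - 2 := by omega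
    rw [Nat.cast_mul, Nat.cast_pow, hcast, h7] at h6
    rw [one_div, inv_pow, ← div_eq_mul_inv, le_div_iff₀ (pow_pos hkD _)]
    linarith
  have hA : (∑ e ∈ bl3_F E W y r, ((M.filter (fun f => bl3_Cst f y e)).card : ℝ)) ≤
      T * ws E r ((k : ℝ) - D) y := by
    calc (∑ e ∈ bl3_F E W y r, ((M.filter (fun f => bl3_Cst f y e)).card : ℝ)) ≤
        ∑ e ∈ bl3_F E W y r, T * (1 / ((k : ℝ) - D)) ^ (e.card - 2) := Finset.sum_le_sum hF
      _ = T * ∑ e ∈ bl3_F E W y r, (1 / ((k : ℝ) - D)) ^ (e.card - 2) := by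
        rw [Finset.mul_sum]
      _ ≤ T * ws E r ((k : ℝ) - D) y := by
        refine mul_le_mul_of_nonneg_left ?_ hT0
        unfold ws
        refine Finset.sum_le_sum_of_subset_of_nonneg ?_ ?_
        · intro e he
          unfold bl3_F at he
          obtain ⟨he1, _, hye, hc3, hcr⟩ := Finset.mem_filter.1 he
          exact Finset.mem_filter.2 ⟨he1, hye, hc3, hcr⟩
        · intro e _ _
          exact pow_nonneg (by positivity) _
  have hB : ((M.filter (fun f => bl3_Big W' k (r - 1) f)).card : ℝ) ≤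
      n.choose (r - 1) * T / ((k : ℝ) - D) ^ (r - 2) := by
    rw [le_div_iff₀ (pow_pos hkD _)]
    have h3 : (((k - D) ^ (r - 1 - 1) * (M.filter (fun f => bl3_Big W' k (r - 1) f)).card : ℕ) : ℝ)
        ≤ ((n.choose (r - 1) * T : ℕ) : ℝ) := by
      exact_mod_cast h2
    rw [Nat.cast_mul, Nat.cast_mul, Nat.cast_pow, hcast] at h3
    have h4 : r - 1 - 1 = r - 2 := by omega
    rw [h4] at h3
    linarith
  have hn0 : (0 : ℝ) ≤ n := Nat.cast_nonneg _
  calc ∑ f ∈ M, (bl3 E W k f y : ℝ) = ((∑ f ∈ M, bl3 E W k f y : ℕ) : ℝ) := by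
        rw [Nat.cast_sum]
    _ ≤ ((∑ e ∈ bl3_F E W y r, (M.filter (fun f => bl3_Cst f y e)).card +
        n * (M.filter (fun f => bl3_Big W' k (r - 1) f)).card : ℕ) : ℝ) := by
        exact_mod_cast hsum
    _ = (∑ e ∈ bl3_F E W y r, ((M.filter (fun f => bl3_Cst f y e)).card : ℝ)) +
        n * ((M.filter (fun f => bl3_Big W' k (r - 1) f)).card : ℝ) := by
        push_cast
        ring
    _ ≤ T * ws E r ((k : ℝ) - D) y +
        n * (n.choose (r - 1) * T / ((k : ℝ) - D) ^ (r - 2)) := by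
        exact add_le_add hA (mul_le_mul_of_nonneg_left hB hn0)
    _ = T * (ws E r ((k : ℝ) - D) y + n * n.choose (r - 1) / ((k : ℝ) - D) ^ (r - 2)) := by
        ring

theorem st_GBL3 (h1 : ST_GMS) (h2 : ST_GBGC) : ST_GBL3 := by
  classical
  intro n D k0 r k E W W' y hT hG hk hDk hr hy hW'
  have hW : ∀ z ∈ W, z ≠ y → z ∈ W' := by
    intro z hz hzy
    rcases hW' with h | h
    · rw [h]
      exact hz
    · rw [h]
      exact Finset.mem_erase.2 ⟨hzy, hz⟩
  have h3 := h2 n D k0 k (r - 1) E W' hT hG hk (by omega)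
  constructor
  · exact gbl3_gen n D r k E W W' y hDk hr hW _ _
      (fun e he hne => (h1 n D k0 k E W' e hT hG hk he hne).1) h3.1
  · exact gbl3_gen n D r k E W W' y hDk hr hW _ _
      (fun e he hne => (h1 n D k0 k E W' e hT hG hk he hne).2) h3.2

end Pool.Agent.Helper5.WD
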